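import Pool.Agent.Q81.EX.Stm
import Pool.Agent.W143.DQ.Schauder

/-!
Project EX (MP_db815f_an), job SCH: the fixed point by Schauder's theorem (helper110).
-/

set_option autoImplicit false

namespace Pool.Agent.Q110.EX

open Pool.Agent.Q81.EX
open Set MeasureTheory Filter Topology

theorem KK_congr {p p' : ℝ → ℝ} (hp : p ∈ KK) (h : EqOn p p' (Icc 0 1)) : p' ∈ KK := by
  obtain ⟨ha, hd, hb⟩ := hp
  have e1 : I1 p' = I1 p := by
    unfold I1
    apply intervalIntegral.integral_congr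
    intro x hx
    rw [uIcc_of_le zero_le_one] at hx
    simp only [h hx]
  have e2 : DD p' = DD p := by
    unfold DD I2
    congr 1
    apply intervalIntegral.integral_congr
    intro x hx
    rw [uIcc_of_le zero_le_one] at hx
    simp only [h hx]
  refine ⟨⟨ha.cont.congr h.symm, ?_, ?_, ?_, ?_⟩, ?_, ?_⟩
  · exact ha.conc.congr h
  · rw [← h ⟨le_rfl, zero_le_one⟩, ha.zero]
  · rw [← h ⟨zero_le_one, le_rfl⟩, ha.one]
  · rw [e1, ha.mom]
  · rw [e2]; exact hd
  · intro s hs
    rw [← h hs]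
    exact hb s hs

open Classical in
/-- the map on the continuous functions -/
noncomputable def That (T : (ℝ → ℝ) → (ℝ → ℝ)) (f : C(Icc (0 : ℝ) 1, ℝ)) : C(Icc (0 : ℝ) 1, ℝ) :=
  if h : Continuous (fun x : Icc (0 : ℝ) 1 => T (IccExtend (zero_le_one' ℝ) f) x) then ⟨_, h⟩ else 0

theorem That_apply {T : (ℝ → ℝ) → (ℝ → ℝ)} (hT : ∀ p ∈ KK, T p ∈ KK) {f : C(Icc (0 : ℝ) 1, ℝ)}
    (hf : f ∈ KC) (x : Icc (0 : ℝ) 1) : That T f x = T (IccExtend (zero_le_one' ℝ) f) x := by
  have h : Continuous (fun x : Icc (0 : ℝ) 1 => T (IccExtend (zero_le_one' ℝ) f) x) :=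
    continuousOn_iff_continuous_domRestrict.mp (hT _ hf).1.cont
  unfold That
  rw [dif_pos h]
  rfl

theorem That_ext {T : (ℝ → ℝ) → (ℝ → ℝ)} (hT : ∀ p ∈ KK, T p ∈ KK) {f : C(Icc (0 : ℝ) 1, ℝ)}
    (hf : f ∈ KC) : EqOn (T (IccExtend (zero_le_one' ℝ) f))
      (IccExtend (zero_le_one' ℝ) (That T f)) (Icc 0 1) := by
  intro x hx
  rw [IccExtend_of_mem _ _ hx, That_apply hT hf]

theorem sch (hNEM : S_NEM) (hCPT : S_CPT) : S_SCH := by
  intro T hT hc
  have hne : KC.Nonempty := by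
    obtain ⟨p, hp⟩ := hNEM
    refine ⟨⟨fun x : Icc (0 : ℝ) 1 => p x, continuousOn_iff_continuous_domRestrict.mp hp.1.cont⟩, ?_⟩
    apply KK_congr hp
    intro x hx
    rw [IccExtend_of_mem _ _ hx]
    rfl
  have hm : ∀ f ∈ KC, That T f ∈ KC := fun f hf => KK_congr (hT _ hf) (That_ext hT hf)
  have hcont : ContinuousOn (That T) KC := by
    intro f hf
    apply Filter.tendsto_of_seq_tendsto
    intro u hu
    rw [tendsto_nhdsWithin_iff] at hu
    obtain ⟨hu1, hu2⟩ := hu
    classical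
    let P : ℕ → ℝ → ℝ := fun n =>
      if u n ∈ KC then IccExtend (zero_le_one' ℝ) (u n) else IccExtend (zero_le_one' ℝ) f
    have hP : ∀ n, P n ∈ KK := by
      intro n
      by_cases h : u n ∈ KC
      · simp only [P, if_pos h]; exact h
      · simp only [P, if_neg h]; exact hf
    rw [ContinuousMap.tendsto_iff_tendstoUniformly, Metric.tendstoUniformly_iff] at hu1
    have h1 : TendstoUniformlyOn P (IccExtend (zero_le_one' ℝ) f) atTop (Icc 0 1) := by
      rw [Metric.tendstoUniformlyOn_iff]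
      intro ε hε
      filter_upwards [hu1 ε hε, hu2] with n hn hn2 x hx
      have e : P n = IccExtend (zero_le_one' ℝ) (u n) := if_pos hn2
      rw [e, IccExtend_of_mem _ _ hx, IccExtend_of_mem _ _ hx]
      exact hn _
    have h2 := hc _ P hf hP h1
    rw [Metric.tendstoUniformlyOn_iff] at h2
    rw [ContinuousMap.tendsto_iff_tendstoUniformly, Metric.tendstoUniformly_iff]
    intro ε hε
    filter_upwards [h2 ε hε, hu2] with n hn hn2 x
    have e : P n = IccExtend (zero_le_one' ℝ) (u n) := if_pos hn2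
    have h3 := hn x x.2
    rw [e] at h3
    rw [That_apply hT hf, Function.comp_apply, That_apply hT hn2]
    exact h3
  obtain ⟨f, hf, hfix⟩ := Pool.Agent.W143.DQ.schauder hCPT.2 hCPT.1 hne (That T) hcont hm
  refine ⟨_, hf, ?_⟩
  have h := That_ext hT hf
  rwa [hfix] at h

end Pool.Agent.Q110.EX
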